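import Pool.Agent.Helper65.EB.Dens

/-!
# Representation functions of any order on finite intervals: large values have positive density

`rep A h n` is the representation function `r_{A,h}(n)`, and `θ_h = 1 - 1 / C(h, ⌊h/2⌋)`.

1. Let `h ≥ 2`, `1 ≤ l ≤ K`, `δ < 1 - (K + l - θ_h)² / (4 l K)` (for `δ = 0` this says
   `√K - √l < √θ_h`) and let `C` be given. There is `c > 0` such that for every `N₁` there is
   `N₀` with: if `N ≥ N₀`, `r_{A,h}(n) ≤ C` for all `n < N` and at most `δ N'` of the `n < N'` have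
   `r_{A,h}(n) < l`, for all `N'` with `N₁ ≤ N' ≤ N`, then at least `c N` of the `n < N` have
   `r_{A,h}(n) > K`. (Only the elements of `A` below `N` play a role.)
2. In particular (`l = 1`, `K = 3`): for every `h ≥ 3` and `C` there is `c > 0` such that for every
   `n₀` and all large `N`: if `1 ≤ r_{A,h}(n) ≤ C` for `n₀ ≤ n < N` and `r_{A,h}(n) ≤ C` for
   `n < n₀`, then at least `c N` of the `n < N` have `r_{A,h}(n) ≥ 4`.
3. The inequality behind this, uniformly in `A`: for `h ≥ 2`, `C`, `N₁`, `δ < 1` and `ε > 0` there is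
   `q₀ < 1` such that for all `A` with `r_{A,h} ≤ C` for which at most `δ N` of the `n < N` have
   `r_{A,h}(n) = 0`, for all `N ≥ N₁`, the Abel means `E_q f = (1 - q) ∑ q ^ n f(n)` satisfy
   `E_q r² ≥ (E_q r)² + θ_h E_q r - ε` for all `q₀ < q < 1`.

Method.  The finite inequality `TH854.BV.core` of the library result `MP_d5a1e1_nt.BinomialVariance`
(which proves the inequality of 3. for each fixed `A` as `q → 1`); the point is that all parameters can be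
chosen uniformly in `A`, since `(1 - δ) N' ≤ |A ∩ [0, N')| ^ h` for `N' ≥ N₁`. For 1. the set `A` is
replaced by the set of its elements below `N / h`. The sum `(1 - q) ∑ q ^ n (r(n) - l) (r(n) - K)` is
bounded below uniformly, and `q = exp (- W h / N)` with a large constant `W` gives the densities.
-/

set_option autoImplicit false

open Filter

namespace Pool.Agent.Results.MP_d5a1e1_nt.HigherOrderDensity

/-- the representation function of order `h`: the number of multisets of `h` elements of `A` with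
sum `n` (equivalently, of tuples `a₁ ≤ a₂ ≤ ... ≤ a_h` of elements of `A` with sum `n`) -/
noncomputable def rep (A : Set ℕ) (h n : ℕ) : ℕ :=
  Set.ncard {s : Multiset ℕ | Multiset.card s = h ∧ (∀ a ∈ s, a ∈ A) ∧ s.sum = n}

/-- the Abel mean `(1 - q) ∑ q^n f(n)` of `f` -/
noncomputable def mean (f : ℕ → ℝ) (q : ℝ) : ℝ := (1 - q) * ∑' n : ℕ, q ^ n * f n

lemma split (h : ℕ) : (h - h / 2) + h / 2 = h := by omega

theorem general (h l K C : ℕ) (δ : ℝ) (hh : 2 ≤ h) (hl : 1 ≤ l) (hlK : l ≤ K)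
    (hδ : δ < 1 - ((K : ℝ) + l - 1 + 1 / h.choose (h / 2)) ^ 2 / (4 * l * K)) :
    ∃ c : ℝ, 0 < c ∧ ∀ N₁ : ℕ, ∃ N₀ : ℕ, ∀ (A : Set ℕ) (N : ℕ), N₀ ≤ N →
      (∀ n, n < N → rep A h n ≤ C) →
      (∀ N' : ℕ, N₁ ≤ N' → N' ≤ N → (Set.ncard {n : ℕ | n < N' ∧ rep A h n < l} : ℝ) ≤ δ * N') →
      c * N ≤ (Set.ncard {n : ℕ | n < N ∧ K < rep A h n} : ℝ) := by
  have h1 := Pool.Agent.Helper65.EB.density (h - h / 2) (h / 2) (by omega) (by omega) l K C δ hl hlK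
  rw [split] at h1
  exact h1 hδ

theorem four (h C : ℕ) (hh : 3 ≤ h) : ∃ c : ℝ, 0 < c ∧ ∀ n₀ : ℕ, ∃ N₀ : ℕ, ∀ (A : Set ℕ) (N : ℕ),
    N₀ ≤ N → (∀ n, n < N → rep A h n ≤ C) → (∀ n, n₀ ≤ n → n < N → 1 ≤ rep A h n) →
      c * N ≤ (Set.ncard {n : ℕ | n < N ∧ 4 ≤ rep A h n} : ℝ) := by
  have hch : 3 ≤ h.choose (h / 2) := by
    have h1 : h.choose 1 ≤ h.choose (h / 2) := Nat.choose_le_middle 1 h
    rw [Nat.choose_one_right] at h1
    omega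
  have hh' : (3 : ℝ) ≤ (h.choose (h / 2) : ℝ) := by exact_mod_cast hch
  have h1 : (1 : ℝ) / (h.choose (h / 2) : ℝ) ≤ 1 / 3 :=
    one_div_le_one_div_of_le (by norm_num) hh'
  have h0 : (0 : ℝ) ≤ 1 / (h.choose (h / 2) : ℝ) := by positivity
  obtain ⟨c, hc, hN⟩ := general h 1 3 C (1 / 100) (by omega) le_rfl (by norm_num) (by
    push_cast
    have : (3 + 1 - 1 + 1 / (h.choose (h / 2) : ℝ)) ^ 2 ≤ (3 + 1 - 1 + 1 / 3) ^ 2 :=
      pow_le_pow_left₀ (by linarith) (by linarith) 2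
    have h2 : (3 + 1 - 1 + 1 / (h.choose (h / 2) : ℝ)) ^ 2 / (4 * 1 * 3) ≤
        (3 + 1 - 1 + 1 / 3) ^ 2 / (4 * 1 * 3) :=
      div_le_div_of_nonneg_right this (by norm_num)
    norm_num at h2 ⊢
    linarith)
  refine ⟨c, hc, fun n₀ => ?_⟩
  obtain ⟨N₀, hN₀⟩ := hN (100 * n₀)
  refine ⟨N₀, fun A N h2 hA hn₀ => hN₀ A N h2 hA fun N' hN' hN'2 => ?_⟩
  have h3 : {n : ℕ | n < N' ∧ rep A h n < 1} ⊆ Set.Iio n₀ := by
    rintro n ⟨h4, h5⟩
    rw [Set.mem_Iio]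
    by_contra h6
    have := hn₀ n (not_lt.mp h6) (by omega)
    omega
  have h4 := Set.ncard_le_ncard h3 (Set.finite_Iio _)
  have h5 : (Set.Iio n₀).ncard = n₀ := by
    rw [← Finset.coe_Iio, Set.ncard_coe_finset, Nat.card_Iio]
  rw [h5] at h4
  have h6 : (Set.ncard {n : ℕ | n < N' ∧ rep A h n < 1} : ℝ) ≤ n₀ := by exact_mod_cast h4
  have h7 : (100 : ℝ) * n₀ ≤ N' := by exact_mod_cast hN'
  linarith

theorem variance (h C N₁ : ℕ) (δ ε : ℝ) (hh : 2 ≤ h) (hδ : δ < 1) (hε : 0 < ε) :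
    ∃ q₀ : ℝ, q₀ < 1 ∧ ∀ A : Set ℕ, (∀ n, rep A h n ≤ C) →
      (∀ N : ℕ, N₁ ≤ N → (Set.ncard {n : ℕ | n < N ∧ rep A h n = 0} : ℝ) ≤ δ * N) →
      ∀ q : ℝ, q₀ < q → q < 1 → mean (fun n => (rep A h n : ℝ)) q ^ 2 +
        (1 - 1 / (h.choose (h / 2) : ℝ)) * mean (fun n => (rep A h n : ℝ)) q - ε ≤
          mean (fun n => (rep A h n : ℝ) ^ 2) q := by
  obtain ⟨R₀, h1⟩ := Pool.Agent.Helper65.EB.law (Pool.Agent.Helper65.EB.Nf h δ N₁) (h - h / 2)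
    (h / 2) (by omega) (by omega) C ε hε
  rw [split] at h1
  obtain ⟨q₀, hq₀, h2⟩ := (mem_nhdsLT_iff_exists_Ioo_subset' (show (0 : ℝ) < 1 by norm_num)).1 h1
  refine ⟨q₀, hq₀, fun A hA hY q hq hq1 => ?_⟩
  refine h2 ⟨hq, hq1⟩ A ?_ hA
  intro R _
  apply Pool.Agent.Helper65.EB.growth (by omega) hδ
  have h3 := hY (Pool.Agent.Helper65.EB.Nf h δ N₁ R + 1) ((le_max_left _ _).trans (Nat.le_succ _))
  have h4 : {n : ℕ | n < Pool.Agent.Helper65.EB.Nf h δ N₁ R + 1 ∧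
      Pool.Agent.H396R2.rep A h n < 1} =
      {n : ℕ | n < Pool.Agent.Helper65.EB.Nf h δ N₁ R + 1 ∧ rep A h n = 0} := by
    ext n
    exact and_congr Iff.rfl Nat.lt_one_iff
  rw [h4]
  exact h3

/-- 1. Let `h ≥ 2`, `1 ≤ l ≤ K`, `δ < 1 - (K + l - 1 + 1/C(h,⌊h/2⌋))² / (4 l K)` and `C` be given.
There is `c > 0` such that for every `N₁` there is `N₀` with: if `N ≥ N₀`, `r_{A,h}(n) ≤ C` for
`n < N` and at most `δ N'` of the `n < N'` have `r_{A,h}(n) < l`, for `N₁ ≤ N' ≤ N`, then at least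
`c N` of the `n < N` have `r_{A,h}(n) > K`. 2. The case `l = 1`, `K = 3` for bases of order `h ≥ 3`
of finite intervals. 3. The second moment inequality, uniformly in `A`. -/
theorem result :
    (∀ (h l K C : ℕ) (δ : ℝ), 2 ≤ h → 1 ≤ l → l ≤ K →
      δ < 1 - ((K : ℝ) + l - 1 + 1 / h.choose (h / 2)) ^ 2 / (4 * l * K) →
      ∃ c : ℝ, 0 < c ∧ ∀ N₁ : ℕ, ∃ N₀ : ℕ, ∀ (A : Set ℕ) (N : ℕ), N₀ ≤ N →
        (∀ n, n < N → rep A h n ≤ C) →
        (∀ N' : ℕ, N₁ ≤ N' → N' ≤ N →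
          (Set.ncard {n : ℕ | n < N' ∧ rep A h n < l} : ℝ) ≤ δ * N') →
        c * N ≤ (Set.ncard {n : ℕ | n < N ∧ K < rep A h n} : ℝ)) ∧
    (∀ h C : ℕ, 3 ≤ h → ∃ c : ℝ, 0 < c ∧ ∀ n₀ : ℕ, ∃ N₀ : ℕ, ∀ (A : Set ℕ) (N : ℕ),
      N₀ ≤ N → (∀ n, n < N → rep A h n ≤ C) → (∀ n, n₀ ≤ n → n < N → 1 ≤ rep A h n) →
        c * N ≤ (Set.ncard {n : ℕ | n < N ∧ 4 ≤ rep A h n} : ℝ)) ∧
    (∀ (h C N₁ : ℕ) (δ ε : ℝ), 2 ≤ h → δ < 1 → 0 < ε →
      ∃ q₀ : ℝ, q₀ < 1 ∧ ∀ A : Set ℕ, (∀ n, rep A h n ≤ C) →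
        (∀ N : ℕ, N₁ ≤ N → (Set.ncard {n : ℕ | n < N ∧ rep A h n = 0} : ℝ) ≤ δ * N) →
        ∀ q : ℝ, q₀ < q → q < 1 → mean (fun n => (rep A h n : ℝ)) q ^ 2 +
          (1 - 1 / (h.choose (h / 2) : ℝ)) * mean (fun n => (rep A h n : ℝ)) q - ε ≤
            mean (fun n => (rep A h n : ℝ) ^ 2) q) :=
  ⟨general, four, variance⟩

end Pool.Agent.Results.MP_d5a1e1_nt.HigherOrderDensity
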