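import Pool.Agent.Helper65.ET.Dens

/-!
# The exceptional integers of a bounded representation function of order two have positive lower
# natural density, uniformly

`rep A n` is the unordered representation function `r_{A,2}(n)`.

1. Let `1 ≤ l ≤ K` with `2 (√K - √l)² < 1000 / 931`. For every `C` there are `c > 0` and `N₀` such
   that for every set `A` with `r_{A,2} ≤ C` and every `N ≥ N₀` at least `c N` of the integers
   `n < N` satisfy `r_{A,2}(n) < l` or `r_{A,2}(n) > K`.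
2. In particular (`l = 1`, `K = 3`): every asymptotic basis `A` of order two with `r_{A,2} ≤ C` has
   at least `c N` integers `n < N` with `r_{A,2}(n) ≥ 4`, for all large `N`; `c` depends only on
   `C`.

Method.  `F(s) = ∑ e^{-as}`, `s = y + ix`, `v = √y |F|² / λ`, `a₀`, `a₁` the first two coefficients of
the transport of `F` to the unit disc (base point `s`, weight `1/2`), `v = |a₀|²`, `q = |a₁|²`.

* flux: the average over `x` and `log y` of `q h(v) - H(v) / 2` vanishes (`H` a primitive of `h`);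
* circles: the average of `B(v) = (√v - 1)₊²` over the hyperbolic circle of radius `ρ = 4/5` about
  `s` is at least `2t(kρ√q + 2ck√v - 1 - c²) - t²(1 + 4c² + c⁴)`, `k⁴ = 1 - ρ²`, for all `c, t ≥ 0`;
* certificate: for `h(v) = -(31/100)(19/20 - v)₊` and suitable `c, t` these two facts give
  `mean v² ≥ 2 mean v - 931/1000`, i.e. `|F|²` cannot be flat (zeros of `F` are forced);
* `v²` away from `x = 0` is bounded from above by the local variance of the representation function.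
-/

set_option autoImplicit false

open Filter

namespace Pool.Agent.Results.MP_d5a1e1_nt.NaturalDensity

/-- the unordered representation function of order two: the number of pairs `a₁ ≤ a₂` of elements
of `A` with `a₁ + a₂ = n` -/
noncomputable def rep (A : Set ℕ) (n : ℕ) : ℕ :=
  Set.ncard {p : ℕ × ℕ | p.1 ∈ A ∧ p.2 ∈ A ∧ p.1 ≤ p.2 ∧ p.1 + p.2 = n}

open Pool.Agent.Helper65.ET in
/-- ordered versus unordered representations -/
lemma RR_eq (A : Set ℕ) (n : ℕ) : RR (ind A) n + ind (dbl A) n = 2 * (rep A n : ℝ) := by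
  classical
  set P := (Finset.HasAntidiagonal.antidiagonal n).filter (fun p => p.1 ∈ A ∧ p.2 ∈ A) with hP
  have memP : ∀ p : ℕ × ℕ, p ∈ P ↔ p.1 + p.2 = n ∧ p.1 ∈ A ∧ p.2 ∈ A := by
    intro p
    rw [hP, Finset.mem_filter, Finset.HasAntidiagonal.mem_antidiagonal]
  have h1 : RR (ind A) n = (P.card : ℝ) := by
    rw [hP, Finset.card_filter]
    unfold RR ind
    push_cast
    refine Finset.sum_congr rfl fun p _ => ?_
    by_cases h1 : p.1 ∈ A <;> by_cases h2 : p.2 ∈ A <;> simp [h1, h2]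
  clear_value P
  have h2 : rep A n = (P.filter (fun p => p.1 ≤ p.2)).card := by
    unfold rep
    rw [← Set.ncard_coe_finset]
    congr 1
    ext p
    rw [Set.mem_ofPred_eq, Finset.mem_coe, Finset.mem_filter, memP]
    tauto
  have h3 : (P.filter (fun p => p.2 ≤ p.1)).card = (P.filter (fun p => p.1 ≤ p.2)).card := by
    refine Finset.card_bij (fun p _ => (p.2, p.1)) ?_ ?_ ?_
    · intro p hp
      rw [Finset.mem_filter, memP] at hp ⊢
      exact ⟨⟨by rw [← hp.1.1]; exact add_comm _ _, hp.1.2.2, hp.1.2.1⟩, hp.2⟩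
    · intro p _ p' _ h
      simp only [Prod.mk.injEq] at h
      exact Prod.ext h.2 h.1
    · intro p hp
      refine ⟨(p.2, p.1), ?_, rfl⟩
      rw [Finset.mem_filter, memP] at hp ⊢
      exact ⟨⟨by rw [← hp.1.1]; exact add_comm _ _, hp.1.2.2, hp.1.2.1⟩, hp.2⟩
  have h4 : P.filter (fun p => p.1 ≤ p.2) ∪ P.filter (fun p => p.2 ≤ p.1) = P := by
    ext p
    rw [Finset.mem_union, Finset.mem_filter, Finset.mem_filter]
    have := le_total p.1 p.2
    tauto
  have h5 : ((P.filter (fun p => p.1 ≤ p.2) ∩ P.filter (fun p => p.2 ≤ p.1)).card : ℝ) =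
      ind (dbl A) n := by
    by_cases hn : n ∈ dbl A
    · obtain ⟨a, ha, rfl⟩ := hn
      have e : P.filter (fun p => p.1 ≤ p.2) ∩ P.filter (fun p => p.2 ≤ p.1) = {(a, a)} := by
        ext p
        rw [Finset.mem_inter, Finset.mem_filter, Finset.mem_filter, memP, Finset.mem_singleton]
        constructor
        · rintro ⟨⟨⟨h6, _⟩, h7⟩, _, h8⟩
          exact Prod.ext (by simp only; omega) (by simp only; omega)
        · rintro rfl
          exact ⟨⟨⟨by simp only; omega, ha, ha⟩, le_rfl⟩, ⟨by simp only; omega, ha, ha⟩, le_rfl⟩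
      rw [e, Finset.card_singleton]
      unfold ind
      rw [if_pos ⟨a, ha, rfl⟩]; norm_num
    · have e : P.filter (fun p => p.1 ≤ p.2) ∩ P.filter (fun p => p.2 ≤ p.1) = ∅ := by
        rw [Finset.eq_empty_iff_forall_notMem]
        intro p hp
        rw [Finset.mem_inter, Finset.mem_filter, Finset.mem_filter, memP] at hp
        obtain ⟨⟨⟨h6, h9, _⟩, h7⟩, _, h8⟩ := hp
        exact hn ⟨p.1, h9, by omega⟩
      rw [e, Finset.card_empty]
      unfold ind
      rw [if_neg hn]; norm_num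
  have h6 := Finset.card_union_add_card_inter (P.filter (fun p => p.1 ≤ p.2))
    (P.filter (fun p => p.2 ≤ p.1))
  rw [h4, h3] at h6
  have h7 : (P.card : ℝ) + ((P.filter (fun p => p.1 ≤ p.2) ∩
      P.filter (fun p => p.2 ≤ p.1)).card : ℝ) = 2 * ((P.filter (fun p => p.1 ≤ p.2)).card : ℝ) := by
    have : ((P.card + (P.filter (fun p => p.1 ≤ p.2) ∩
      P.filter (fun p => p.2 ≤ p.1)).card : ℕ) : ℝ) =
      (((P.filter (fun p => p.1 ≤ p.2)).card + (P.filter (fun p => p.1 ≤ p.2)).card : ℕ) : ℝ) := by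
      rw [h6]
    push_cast at this ⊢
    linarith
  rw [h1, ← h5, h2]
  exact h7

open Pool.Agent.Helper65.ET in
theorem general (C l K : ℕ) (hl : 1 ≤ l) (hlK : l ≤ K)
    (h : 2 * (√(K : ℝ) - √(l : ℝ)) ^ 2 < 1000 / 931) :
    ∃ c : ℝ, 0 < c ∧ ∃ N₀ : ℕ, ∀ A : Set ℕ, (∀ n, rep A n ≤ C) → ∀ N : ℕ, N₀ ≤ N →
      c * N ≤ (Set.ncard {n : ℕ | n < N ∧ (rep A n < l ∨ K < rep A n)} : ℝ) := by
  obtain ⟨c, hc, N₀, hN₀⟩ := density (C := 2 * (C : ℝ)) (l := (l : ℝ)) (K := (K : ℝ))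
    (by positivity) (by exact_mod_cast hl) (by exact_mod_cast hlK) h
  refine ⟨c, hc, N₀, fun A hA N hN => ?_⟩
  refine hN₀ A {n | rep A n < l ∨ K < rep A n} (fun n => ?_) (fun n hn hn2 => ?_) N hN
  · have h1 := RR_eq A n
    have h2 := ind_nonneg (dbl A) n
    have h3 : (rep A n : ℝ) ≤ C := by exact_mod_cast hA n
    linarith
  · have h1 := RR_eq A n
    have h2 : ind (dbl A) n = 0 := if_neg hn2
    rw [Set.mem_ofPred_eq] at hn
    push Not at hn
    have h3 : (l : ℝ) ≤ rep A n := by exact_mod_cast hn.1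
    have h4 : (rep A n : ℝ) ≤ K := by exact_mod_cast hn.2
    constructor <;> linarith

lemma cond13 : 2 * (√((3 : ℕ) : ℝ) - √((1 : ℕ) : ℝ)) ^ 2 < 1000 / 931 := by
  have h1 : √((1 : ℕ) : ℝ) = 1 := by norm_num
  have h2 : (1.7315 : ℝ) ≤ √((3 : ℕ) : ℝ) := by
    apply Real.le_sqrt_of_sq_le; norm_num
  have h3 : √((3 : ℕ) : ℝ) ^ 2 = 3 := by
    rw [Real.sq_sqrt (by positivity)]; norm_num
  have e : 2 * (√((3 : ℕ) : ℝ) - 1) ^ 2 = 2 * √((3 : ℕ) : ℝ) ^ 2 - 4 * √((3 : ℕ) : ℝ) + 2 := by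
    ring
  rw [h1, e, h3]
  linarith

/-- 1. Let `1 ≤ l ≤ K` with `2 (√K - √l)² < 1000 / 931`. For every `C` there are `c > 0` and `N₀`
such that for every set `A` with `r_{A,2} ≤ C` and every `N ≥ N₀` at least `c N` of the `n < N`
satisfy `r_{A,2}(n) < l` or `r_{A,2}(n) > K`. 2. For every `C` there is `c > 0` such that every
asymptotic basis `A` of order two with `r_{A,2} ≤ C` has at least `c N` integers `n < N` with
`r_{A,2}(n) ≥ 4`, for all large `N`. -/
theorem result :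
    (∀ C l K : ℕ, 1 ≤ l → l ≤ K → 2 * (√(K : ℝ) - √(l : ℝ)) ^ 2 < 1000 / 931 →
      ∃ c : ℝ, 0 < c ∧ ∃ N₀ : ℕ, ∀ A : Set ℕ, (∀ n, rep A n ≤ C) → ∀ N : ℕ, N₀ ≤ N →
        c * N ≤ (Set.ncard {n : ℕ | n < N ∧ (rep A n < l ∨ K < rep A n)} : ℝ)) ∧
    (∀ C : ℕ, ∃ c : ℝ, 0 < c ∧ ∀ A : Set ℕ, (∀ n, rep A n ≤ C) →
      (∃ n₀ : ℕ, ∀ n, n₀ ≤ n → 1 ≤ rep A n) →
        ∀ᶠ N : ℕ in atTop, c * N ≤ (Set.ncard {n : ℕ | n < N ∧ 4 ≤ rep A n} : ℝ)) := by
  refine ⟨general, fun C => ?_⟩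
  obtain ⟨c, hc, N₀, hN₀⟩ := general C 1 3 le_rfl (by norm_num) cond13
  refine ⟨c / 2, by positivity, fun A hA ⟨n₀, hn₀⟩ => ?_⟩
  obtain ⟨N1, hN1⟩ := exists_nat_ge (n₀ / (c / 2) : ℝ)
  filter_upwards [eventually_ge_atTop N₀, eventually_ge_atTop N1] with N h1 h2
  have h3 := hN₀ A hA N h1
  have h4 : {n : ℕ | n < N ∧ (rep A n < 1 ∨ 3 < rep A n)} ⊆
      {n : ℕ | n < N ∧ 4 ≤ rep A n} ∪ Set.Iio n₀ := by
    rintro n ⟨h5, h6⟩
    rcases h6 with h6 | h6
    · right
      rw [Set.mem_Iio]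
      by_contra h7
      have := hn₀ n (not_lt.mp h7)
      omega
    · left; exact ⟨h5, h6⟩
  have hfin : ({n : ℕ | n < N ∧ 4 ≤ rep A n} ∪ Set.Iio n₀).Finite :=
    ((Set.finite_Iio N).subset fun n hn => hn.1).union (Set.finite_Iio n₀)
  have h5 := (Set.ncard_le_ncard h4 hfin).trans (Set.ncard_union_le _ _)
  have h6 : (Set.Iio n₀).ncard = n₀ := by
    rw [← Finset.coe_Iio, Set.ncard_coe_finset, Nat.card_Iio]
  rw [h6] at h5
  have h7 : ((Set.ncard {n : ℕ | n < N ∧ (rep A n < 1 ∨ 3 < rep A n)} : ℕ) : ℝ) ≤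
      (Set.ncard {n : ℕ | n < N ∧ 4 ≤ rep A n} : ℝ) + n₀ := by exact_mod_cast h5
  have h8 : (n₀ : ℝ) ≤ c / 2 * N := by
    rw [div_le_iff₀ (by positivity)] at hN1
    have : (N1 : ℝ) ≤ N := by exact_mod_cast h2
    nlinarith
  linarith

end Pool.Agent.Results.MP_d5a1e1_nt.NaturalDensity
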