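import Pool.Agent.Helper65.E3.Fin

/-!
# Bases of order three: the variance constant `2/3` is not optimal

`rep A n` is the unordered representation function `r_{A,3}(n)`.

1. Let `1 ≤ l ≤ K`, `δ < 1 - (K + l - 17/25)² / (4 l K)` (for `δ = 0`: `(√K - √l)² < 17/25`) and let
   `C` be given. There is `c > 0` such that for every `N₁` there is `N₀` with: if `N ≥ N₀`,
   `r_{A,3}(n) ≤ C` for all `n < N` and at most `δ N'` of the `n < N'` have `r_{A,3}(n) < l`, for all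
   `N'` with `N₁ ≤ N' ≤ N`, then at least `c N` of the `n < N` have `r_{A,3}(n) > K`.
   (Only the elements of `A` below `N` play a role.)
2. In particular (`l = 2`, `K = 5`): for every `C` there is `c > 0` such that for every `n₀` and all
   large `N`: if `r_{A,3} ≤ C` on `[0, N)` and `r_{A,3} ≥ 2` on `[n₀, N)`, then at least `c N` of the
   `n < N` have `r_{A,3}(n) ≥ 6`.
3. For every `n₀` there is `N` such that every `A` with `r_{A,3} ≥ 2` on `[n₀, N)` has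
   `r_{A,3}(n) ≥ 6` for some `n < N`.
4. If `r_{A,3}(n) ≥ 2` for all large `n`, then `r_{A,3}(n) ≥ 6` for infinitely many `n`.

Method.  `F(s) = ∑ e^{-as}`, `s = y + ix`, `v = y ^ (1/3) |F|² / λ`.  The energy of the sums of two
elements gives `mean v² ≥ 2 (mean v)²`, and Cauchy-Schwarz (`v (v - c)² ≥ 0`) would give
`mean v³ ≥ 4 (mean v)³`, with equality only if `v` takes two values `0` and `2 mean v`.  Such a `v`
is impossible, since `F` is holomorphic and its zeros are forced by curvature: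

* flux: the average over `x` and `log y` of `q g(v) - G(v) / 3` vanishes (`G` a primitive of `g`,
  `q = y ^ (1/3) |2 y F' + F / 3|² / λ`);
* circles: the average of `B(v) = (√v - 1)₊²` over the hyperbolic circle of radius `4/5` about `s`
  is at least `2t(ρκ√q + 2cκ√v - 1 - c²) - t²(1 + 4c² + c⁴)`, `κ³ = 3/5`, for all `c, t ≥ 0`;
* certificate: with `g(v) = -(11/25) v (19/20 - v)₊` these give
  `mean (v³ - (99/50) v² + (24/25) v) ≥ 0`, so `mean v³ ≥ 4.08 (mean v)³`.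
-/

set_option autoImplicit false

open Filter

namespace Pool.Agent.Results.MP_d5a1e1_nt.OrderThree

/-- the unordered representation function of order three: the number of triples
`a₁ ≤ a₂ ≤ a₃` of elements of `A` with sum `n` -/
noncomputable def rep (A : Set ℕ) (n : ℕ) : ℕ :=
  Set.ncard {f : Fin 3 → ℕ | Monotone f ∧ (∀ i, f i ∈ A) ∧ ∑ i, f i = n}

theorem general (l K C : ℕ) (δ : ℝ) (hl : 1 ≤ l) (hlK : l ≤ K)
    (hδ : δ < 1 - ((K : ℝ) + l - 17 / 25) ^ 2 / (4 * l * K)) :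
    ∃ c : ℝ, 0 < c ∧ ∀ N₁ : ℕ, ∃ N₀ : ℕ, ∀ (A : Set ℕ) (N : ℕ), N₀ ≤ N →
      (∀ n, n < N → rep A n ≤ C) →
      (∀ N' : ℕ, N₁ ≤ N' → N' ≤ N →
        (Set.ncard {n : ℕ | n < N' ∧ rep A n < l} : ℝ) ≤ δ * N') →
      c * N ≤ (Set.ncard {n : ℕ | n < N ∧ K < rep A n} : ℝ) :=
  Pool.Agent.Helper65.E3.Fin3.general l K C δ hl hlK hδ

theorem six (C : ℕ) : ∃ c : ℝ, 0 < c ∧ ∀ n₀ : ℕ, ∃ N₀ : ℕ, ∀ (A : Set ℕ) (N : ℕ), N₀ ≤ N →
    (∀ n, n < N → rep A n ≤ C) → (∀ n, n₀ ≤ n → n < N → 2 ≤ rep A n) →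
      c * N ≤ (Set.ncard {n : ℕ | n < N ∧ 6 ≤ rep A n} : ℝ) := by
  obtain ⟨c, hc, hN⟩ := general 2 5 C (1 / 1000) (by norm_num) (by norm_num) (by norm_num)
  refine ⟨c, hc, fun n₀ => ?_⟩
  obtain ⟨N₀, hN₀⟩ := hN (1000 * n₀)
  refine ⟨N₀, fun A N h2 hA hn₀ => hN₀ A N h2 hA fun N' hN' hN'2 => ?_⟩
  have h3 : {n : ℕ | n < N' ∧ rep A n < 2} ⊆ Set.Iio n₀ := by
    rintro n ⟨h4, h5⟩
    rw [Set.mem_Iio]
    by_contra h6
    have := hn₀ n (not_lt.mp h6) (by omega)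
    omega
  have h4 := Set.ncard_le_ncard h3 (Set.finite_Iio _)
  have h5 : (Set.Iio n₀).ncard = n₀ := by
    rw [← Finset.coe_Iio, Set.ncard_coe_finset, Nat.card_Iio]
  rw [h5] at h4
  have h6 : (Set.ncard {n : ℕ | n < N' ∧ rep A n < 2} : ℝ) ≤ n₀ := by exact_mod_cast h4
  have h7 : (1000 : ℝ) * n₀ ≤ N' := by exact_mod_cast hN'
  linarith

theorem finite_six (n₀ : ℕ) : ∃ N : ℕ, ∀ A : Set ℕ, (∀ n, n₀ ≤ n → n < N → 2 ≤ rep A n) →
    ∃ n, n < N ∧ 6 ≤ rep A n := by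
  obtain ⟨c, hc, h⟩ := six 5
  obtain ⟨N₀, hN₀⟩ := h n₀
  refine ⟨N₀ + 1, fun A hA => ?_⟩
  by_contra hcon
  push Not at hcon
  have h1 := hN₀ A (N₀ + 1) (by omega) (fun n hn => by have := hcon n hn; omega) hA
  have h2 : {n : ℕ | n < N₀ + 1 ∧ 6 ≤ rep A n} = ∅ := by
    rw [Set.eq_empty_iff_forall_notMem]
    rintro n ⟨h3, h4⟩
    have := hcon n h3
    omega
  rw [h2, Set.ncard_empty] at h1
  have h3 : (0 : ℝ) < ((N₀ + 1 : ℕ) : ℝ) := by positivity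
  have h4 := mul_pos hc h3
  push_cast at h1 h4
  linarith

/-- 1. Let `1 ≤ l ≤ K`, `δ < 1 - (K + l - 17/25)² / (4 l K)` and `C` be given. There is `c > 0` such
that for every `N₁` there is `N₀` with: if `N ≥ N₀`, `r_{A,3}(n) ≤ C` for `n < N` and at most `δ N'` of
the `n < N'` have `r_{A,3}(n) < l`, for `N₁ ≤ N' ≤ N`, then at least `c N` of the `n < N` have
`r_{A,3}(n) > K`. 2. The case `l = 2`, `K = 5` for finite intervals. 3. For every `n₀` there is `N`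
such that `r_{A,3} ≥ 2` on `[n₀, N)` implies `r_{A,3}(n) ≥ 6` for some `n < N`. 4. If
`r_{A,3}(n) ≥ 2` for all large `n`, then `r_{A,3}(n) ≥ 6` for infinitely many `n`. -/
theorem result :
    (∀ (l K C : ℕ) (δ : ℝ), 1 ≤ l → l ≤ K →
      δ < 1 - ((K : ℝ) + l - 17 / 25) ^ 2 / (4 * l * K) →
      ∃ c : ℝ, 0 < c ∧ ∀ N₁ : ℕ, ∃ N₀ : ℕ, ∀ (A : Set ℕ) (N : ℕ), N₀ ≤ N →
        (∀ n, n < N → rep A n ≤ C) →
        (∀ N' : ℕ, N₁ ≤ N' → N' ≤ N →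
          (Set.ncard {n : ℕ | n < N' ∧ rep A n < l} : ℝ) ≤ δ * N') →
        c * N ≤ (Set.ncard {n : ℕ | n < N ∧ K < rep A n} : ℝ)) ∧
    (∀ C : ℕ, ∃ c : ℝ, 0 < c ∧ ∀ n₀ : ℕ, ∃ N₀ : ℕ, ∀ (A : Set ℕ) (N : ℕ), N₀ ≤ N →
      (∀ n, n < N → rep A n ≤ C) → (∀ n, n₀ ≤ n → n < N → 2 ≤ rep A n) →
        c * N ≤ (Set.ncard {n : ℕ | n < N ∧ 6 ≤ rep A n} : ℝ)) ∧
    (∀ n₀ : ℕ, ∃ N : ℕ, ∀ A : Set ℕ, (∀ n, n₀ ≤ n → n < N → 2 ≤ rep A n) →
      ∃ n, n < N ∧ 6 ≤ rep A n) ∧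
    (∀ A : Set ℕ, (∃ n₀ : ℕ, ∀ n, n₀ ≤ n → 2 ≤ rep A n) → {n : ℕ | 6 ≤ rep A n}.Infinite) := by
  refine ⟨general, six, finite_six, fun A hA hfin => ?_⟩
  -- a finite set of exceptions makes `r` bounded
  obtain ⟨C, hC⟩ : ∃ C, ∀ n, rep A n ≤ C := by
    obtain ⟨B, hB⟩ := (hfin.image (rep A)).bddAbove
    refine ⟨max B 5, fun n => ?_⟩
    by_cases h : 6 ≤ rep A n
    · exact (hB (Set.mem_image_of_mem _ h)).trans (le_max_left _ _)
    · exact le_trans (by omega) (le_max_right _ _)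
  obtain ⟨n₀, hn₀⟩ := hA
  obtain ⟨c, hc, h1⟩ := six C
  obtain ⟨N0, hN0⟩ := h1 n₀
  obtain ⟨N1, hN1⟩ := exists_nat_ge (((({n : ℕ | 6 ≤ rep A n}.ncard : ℕ) : ℝ) + 1) / c)
  have h2 := hN0 A (max N0 N1) (le_max_left _ _) (fun n _ => hC n) (fun n hn _ => hn₀ n hn)
  have h3 : (Set.ncard {n : ℕ | n < max N0 N1 ∧ 6 ≤ rep A n} : ℝ) ≤
      ((({n : ℕ | 6 ≤ rep A n}.ncard : ℕ) : ℝ)) := by
    have h5 : {n : ℕ | n < max N0 N1 ∧ 6 ≤ rep A n} ⊆ {n : ℕ | 6 ≤ rep A n} :=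
      fun n hn => hn.2
    exact_mod_cast Set.ncard_le_ncard h5 hfin
  rw [div_le_iff₀ hc] at hN1
  have h4 : (N1 : ℝ) ≤ ((max N0 N1 : ℕ) : ℝ) := by exact_mod_cast le_max_right _ _
  nlinarith

end Pool.Agent.Results.MP_d5a1e1_nt.OrderThree
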