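import Mathlib
import Pool.Agent.Helper12.ET.Spec
import Pool.Agent.Helper12.ET.CS
import Pool.Agent.Helper12.ET.DY
import Pool.Agent.Helper12.ET.Gen
import Pool.Agent.Helper12.ET.Fin6
import Pool.Agent.Helper12.ET.Defs2
import Pool.Agent.Helper12.ET.Pop
import Pool.Agent.Helper5.ET.OV
import Pool.Agent.Helper10.ET.LOW
import Pool.Agent.Helper19.ET.SIZE
import Pool.Agent.Helper68.ET.UP
import Pool.Agent.Helper71.ET.BH

/-!
# MP_d5a1e1_nt: colourings of asymptotic bases of even order, and finite unions of `B_h`-sets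

Let `h = 2 k` be even.  For a set `B` of natural numbers and an integer `d` consider the
representations `d = (x_1 + ... + x_k) - (y_1 + ... + y_k)` with `x_i, y_i ∈ B` and `x_i ≠ y_j` for
all `i, j`.  `FewDiff g k B` means that every integer `d` has at most `g` such representations.
`IsBh h B` means that `B` is a `B_h`-set (`r_{B,h} ≤ 1`); a `B_{2k}`-set satisfies `FewDiff (k!²) k`.
`nb B j` is the number of elements of `B` in `[2^j, 2^(j+1))`.

1. `∑_{J ≤ j < 2J} nb B j ^ (2k) / 2^j ≤ C(g, k)` for all `J` and all `B` with `FewDiff g k B`.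
2. Hence subsets `A` of unions of `m` such sets satisfy `|A ∩ [0, x)| ^ (2k) < c x` for some `x` in
   `[x0, X]`, where `X` depends on `g, k, m, c, x0` only.
3. If all `n` in `[n0, N]`, `N = N(g, k, m, n0)`, are sums of `2k` elements of `A`, and `A ∩ [0, N]` is
   coloured in `m` colours, then for one of the colours some `d` has more than `g` representations
   as above by elements of this colour.
4. If an asymptotic basis of order `2k` is coloured in finitely many colours, then for one of the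
   colours the number of these representations is unbounded.
5. If all `n` in `[n0, N]`, `N = N(k, m, n0)`, are sums of `2k` elements of `A`, then `A ∩ [0, N]` is not
   a union of `m` `B_{2k}`-sets.
6. If an asymptotic basis of order `2k` is coloured in finitely many colours, then for one of the
   colours infinitely many `n` have at least two representations (up to the order of the summands)
   as a sum of `2k` elements of this colour.  In particular an asymptotic basis of order `2k` is
   never a finite union of `B_{2k}`-sets: the problem has a positive answer in this class.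

7. Let `A` be a counterexample to the problem for `h = 2k`: at most `K` ordered representations of every
   `n`, at least one for `n ≥ n0`.  For every colouring of `A` in `m` colours and all `N ≥ N0`, there is
   a colour such that at least `c N` of the integers `d` with `|d| < N` (the set `PopSet`) have more
   than `g` representations as above by elements of this colour.  Here `c = c(k, K, g, m)` and
   `N0 = N0(k, K, g, m, n0)`: popular `k`-fold differences have positive density.

The proof is a higher order version of the argument of Erdős: the number of pairs of `k`-fold sums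
of `F = B ∩ [0, N²)` at distance less than `N` (with the weight `N - |distance|`) is at least
`c N² ∑_j |F ∩ [2^j, 2^(j+1))| ^ (2k) / 2^j`, by Cauchy-Schwarz in each dyadic interval, and it is at most
`C N²`; for the pairs with common summands this is not trivial for `k ≥ 2` and follows from the
log-convexity of these numbers in `k` (the kernel is positive definite).
-/

set_option autoImplicit false

namespace Pool.Agent.Results.MP_d5a1e1_nt.UnionsOfBhSets

open Pool.Agent.Helper12.ET
open Pool.Agent.Helper12.ET.Pop (RepLe PopSet)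

theorem result (k : ℕ) (hk : 1 ≤ k) :
    -- 1. the dyadic inequality
    (∀ g : ℕ, ∃ C : ℝ, ∀ B : Set ℕ, FewDiff g k B → ∀ J : ℕ,
      ∑ j ∈ Finset.Ico J (2 * J), (nb B j : ℝ) ^ (2 * k) / 2 ^ j ≤ C) ∧
    -- 2. finite unions of such sets are thin at some scale of a bounded range
    (∀ (g m : ℕ) (c : ℝ), 0 < c → ∀ x0 : ℕ, ∃ X : ℕ, ∀ (A : Set ℕ) (B : Fin m → Set ℕ),
      A ⊆ ⋃ i, B i → (∀ i, FewDiff g k (B i)) →
      ∃ x : ℕ, x0 ≤ x ∧ x ≤ X ∧ ((A ∩ Set.Iio x).ncard : ℝ) ^ (2 * k) < c * x) ∧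
    -- 3. colourings of sets which represent all numbers of a long interval
    (∀ g m n0 : ℕ, ∃ N : ℕ, ∀ A : Set ℕ,
      (∀ n, n0 ≤ n → n ≤ N → ∃ u : Fin (2 * k) → ℕ, (∀ i, u i ∈ A) ∧ ∑ i, u i = n) →
      ∀ B : Fin m → Set ℕ, A ∩ Set.Iic N ⊆ ⋃ i, B i → ∃ i, ¬ FewDiff g k (B i)) ∧
    -- 4. colourings of asymptotic bases
    (∀ A : Set ℕ,
      (∃ n0 : ℕ, ∀ n, n0 ≤ n → ∃ u : Fin (2 * k) → ℕ, (∀ i, u i ∈ A) ∧ ∑ i, u i = n) →
      ∀ (m : ℕ) (B : Fin m → Set ℕ), A ⊆ ⋃ i, B i → ∃ i, ∀ g, ¬ FewDiff g k (B i)) ∧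
    -- 5. unions of `m` `B_{2k}`-sets
    (∀ m n0 : ℕ, ∃ N : ℕ, ∀ A : Set ℕ,
      (∀ n, n0 ≤ n → n ≤ N → ∃ u : Fin (2 * k) → ℕ, (∀ i, u i ∈ A) ∧ ∑ i, u i = n) →
      ∀ B : Fin m → Set ℕ, A ∩ Set.Iic N ⊆ ⋃ i, B i → ∃ i, ¬ IsBh (2 * k) (B i)) ∧
    -- 6. one class of each finite colouring of an asymptotic basis of order `2k` has infinitely many
    -- `n` with at least two representations
    (∀ A : Set ℕ,
      (∃ n0 : ℕ, ∀ n, n0 ≤ n → ∃ u : Fin (2 * k) → ℕ, (∀ i, u i ∈ A) ∧ ∑ i, u i = n) →
      ∀ (m : ℕ) (B : Fin m → Set ℕ), A ⊆ ⋃ i, B i →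
      ∃ i, ∀ n1 : ℕ, ∃ s t : Multiset ℕ, Multiset.card s = 2 * k ∧ Multiset.card t = 2 * k ∧
        (∀ x ∈ s, x ∈ B i) ∧ (∀ x ∈ t, x ∈ B i) ∧ s ≠ t ∧ s.sum = t.sum ∧ n1 ≤ s.sum) ∧
    -- 7. in a counterexample, popular differences have positive density in one of the classes
    (∀ K g m : ℕ, ∃ c : ℝ, 0 < c ∧ ∀ n0 : ℕ, ∃ N0 : ℕ, ∀ A : Set ℕ, RepLe K (2 * k) A →
      (∀ n, n0 ≤ n → ∃ u : Fin (2 * k) → ℕ, (∀ i, u i ∈ A) ∧ ∑ i, u i = n) →
      ∀ B : Fin m → Set ℕ, A ⊆ ⋃ i, B i → ∀ N, N0 ≤ N →
        ∃ i, c * N ≤ ((PopSet (A ∩ B i) k g N).ncard : ℝ)) := by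
  have hOV : S_OV := Pool.Agent.Helper5.ET.OV.main
  have hLOW : S_LOW := Pool.Agent.Helper10.ET.LOW.main
  have hCS : S_CS := CS.main
  have hSZ : S_SIZE := Pool.Agent.Helper19.ET.SIZE.main hOV
  have hUP : S_UP := Pool.Agent.Helper68.ET.UP.main hCS hOV hSZ
  have hDY : S_DY := DY.main hUP hLOW
  have hBH : S_BH := Pool.Agent.Helper71.ET.BH.main
  refine ⟨fun g => ?_, fun g m c hc x0 => Gen.gen hSZ hDY k hk g m c hc x0,
    fun g m n0 => Gen.basis hSZ hDY k hk g m n0,
    fun A hA m B hAB => Fin6.colour hSZ hDY k hk A hA m B hAB,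
    fun m n0 => Fin6.unionBh hSZ hDY hBH k hk m n0,
    fun A hA m B hAB => Fin6.infinitely hSZ hDY hBH k hk A hA m B hAB,
    fun K g m => Pop.popular k hk K g m⟩
  obtain ⟨C, _, hC⟩ := hDY g k hk
  exact ⟨C, hC⟩

end Pool.Agent.Results.MP_d5a1e1_nt.UnionsOfBhSets
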